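import Pool.Agent.N879.GD.Stm

set_option autoImplicit false

/-!
GD, piece SUM: the bound for one block.
-/

namespace Pool.Agent.Helper59.GD

open Pool.Agent.N879.GD

noncomputable section

/-- the constant -/
def KK : ℝ := Real.exp (1 / 4) * 122880

lemma KK_pos : 0 < KK := by unfold KK; positivity

lemma one_le_KK : 1 ≤ KK := by
  unfold KK
  have : (1 : ℝ) ≤ Real.exp (1 / 4) := Real.one_le_exp (by norm_num)
  nlinarith

lemma log_ge (m R : ℕ) (hm : 1 ≤ m) : (R : ℝ) / (m + R) ≤ Real.log (1 + (R : ℝ) / m) := by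
  have hm0 : (0 : ℝ) < m := by exact_mod_cast hm
  have h1 : (0 : ℝ) < 1 + (R : ℝ) / m := by positivity
  have h2 := Real.one_sub_inv_le_log_of_pos h1
  have h3 : 1 - (1 + (R : ℝ) / m)⁻¹ = (R : ℝ) / (m + R) := by
    field_simp
    ring
  linarith

/-- the factor of `q` -/
lemma Gq (w z q E : ℝ) (hw : 1 ≤ w) (hz : 1 ≤ z) (hq : q = w / z)
    (hE : E = Real.exp (-((w - 1) / (4 * z)))) :
    q ^ 4 * (√q)⁻¹ * E ≤ KK * q ∧ q ^ 4 * (√q)⁻¹ * E ≤ KK * q⁻¹ ∧ q ^ 4 * (√q)⁻¹ * E ≤ KK := by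
  have hz0 : 0 < z := by linarith
  have hw0 : 0 < w := by linarith
  have hq0 : 0 < q := by rw [hq]; positivity
  have hE0 : 0 < E := by rw [hE]; positivity
  have hE1 : E ≤ 1 := by
    rw [hE]
    apply Real.exp_le_one_iff.2
    have : 0 ≤ (w - 1) / (4 * z) := div_nonneg (by linarith) (by positivity)
    linarith
  have hK := one_le_KK
  rcases le_total q 1 with h | h
  · have h1 : q ^ 4 * (√q)⁻¹ * E ≤ q := by
      have h2 : q ^ 4 * (√q)⁻¹ = q ^ 3 * √q := by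
        have h3 : √q * √q = q := Real.mul_self_sqrt hq0.le
        have h4 : √q ≠ 0 := (Real.sqrt_pos.2 hq0).ne'
        field_simp
        nlinarith
      rw [h2]
      have h3 : √q ≤ 1 := Real.sqrt_le_one.2 h
      have h4 : q ^ 3 ≤ q := by nlinarith [mul_pos hq0 hq0]
      have h5 : q ^ 3 * √q ≤ q * 1 := mul_le_mul h4 h3 (by positivity) hq0.le
      calc q ^ 3 * √q * E ≤ (q * 1) * 1 := mul_le_mul h5 hE1 hE0.le (by positivity)
        _ = q := by ring
    have h2 : q ≤ KK * q := by nlinarith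
    have h3 : 1 ≤ q⁻¹ := (one_le_inv₀ hq0).2 h
    have h4 : 1 ≤ KK * q⁻¹ := by nlinarith
    exact ⟨by linarith, by linarith, by linarith⟩
  · have hE2 : E ≤ Real.exp (1 / 4) * Real.exp (-(q / 4)) := by
      rw [hE, ← Real.exp_add]
      apply Real.exp_le_exp.2
      have h1 : (w - 1) / (4 * z) = q / 4 - 1 / (4 * z) := by
        rw [hq]; field_simp
      have h2 : 1 / (4 * z) ≤ 1 / 4 := by
        apply one_div_le_one_div_of_le (by norm_num); linarith
      linarith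
    have h5 : q ^ 5 * Real.exp (-(q / 4)) ≤ 122880 := by
      have h1 := Real.pow_div_factorial_le_exp (q / 4) (by positivity) 5
      have h2 : ((5 : ℕ).factorial : ℝ) = 120 := by norm_num [Nat.factorial]
      rw [h2] at h1
      have h3 : q ^ 5 ≤ 122880 * Real.exp (q / 4) := by
        have : (q / 4) ^ 5 / 120 = q ^ 5 / 122880 := by ring
        rw [this] at h1
        rw [div_le_iff₀ (by norm_num)] at h1
        linarith
      calc q ^ 5 * Real.exp (-(q / 4)) ≤ 122880 * Real.exp (q / 4) * Real.exp (-(q / 4)) :=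
            mul_le_mul_of_nonneg_right h3 (Real.exp_pos _).le
        _ = 122880 := by rw [mul_assoc, ← Real.exp_add]; simp
    have h6 : (√q)⁻¹ ≤ 1 := inv_le_one_of_one_le₀ (Real.one_le_sqrt.2 h)
    have h7 : q ^ 4 * (√q)⁻¹ * E ≤ KK * q⁻¹ := by
      have h8 : q ^ 4 * (√q)⁻¹ * E ≤ q ^ 4 * 1 * (Real.exp (1 / 4) * Real.exp (-(q / 4))) := by
        apply mul_le_mul _ hE2 hE0.le (by positivity)
        exact mul_le_mul_of_nonneg_left h6 (by positivity)
      refine h8.trans ?_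
      have h9 : q ^ 4 * 1 * (Real.exp (1 / 4) * Real.exp (-(q / 4))) =
          Real.exp (1 / 4) * (q ^ 5 * Real.exp (-(q / 4))) * q⁻¹ := by
        field_simp
      rw [h9]
      unfold KK
      exact mul_le_mul_of_nonneg_right (mul_le_mul_of_nonneg_left h5 (Real.exp_pos _).le)
        (by positivity)
    have h8 : q⁻¹ ≤ 1 := inv_le_one_of_one_le₀ h
    have h9 : KK * q⁻¹ ≤ KK := by nlinarith
    have h10 : KK ≤ KK * q := by nlinarith
    exact ⟨by linarith, h7, by linarith⟩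

/-- the common factor -/
lemma common (T z w q : ℝ) (m R : ℕ) (hT : 0 < T) (hm : 1 ≤ m) (hR : 1 ≤ R)
    (hz : z = zz T m R) (hz1 : 1 ≤ z) (hw : 1 ≤ w) (hq : q = w / z) :
    (√((m : ℝ) * (m + R)))⁻¹ * w ^ (-(1 / 2 : ℝ)) * R ≤ √((R : ℝ) / (m * T)) * (√q)⁻¹ := by
  have hm0 : (0 : ℝ) < m := by exact_mod_cast hm
  have hR0 : (0 : ℝ) < R := by exact_mod_cast hR
  have hz0 : 0 < z := by linarith
  have hw0 : 0 < w := by linarith
  have hq0 : 0 < q := by rw [hq]; positivity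
  have hzge : T * ((R : ℝ) / (m + R)) ≤ z := by
    rw [hz]; unfold zz
    exact mul_le_mul_of_nonneg_left (log_ge m R hm) hT.le
  have e1 : w ^ (-(1 / 2 : ℝ)) = (√w)⁻¹ := by
    rw [Real.rpow_neg hw0.le, Real.sqrt_eq_rpow]
  have hwq : w = q * z := by rw [hq]; field_simp
  rw [e1, ← mul_inv, ← Real.sqrt_mul (by positivity)]
  have h1 : (m : ℝ) * T * R * q ≤ (m : ℝ) * (m + R) * w := by
    rw [hwq]
    have : (m : ℝ) * (m + R) * (q * (T * ((R : ℝ) / (m + R)))) = m * T * R * q := by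
      field_simp
    rw [← this]
    apply mul_le_mul_of_nonneg_left _ (by positivity)
    exact mul_le_mul_of_nonneg_left hzge hq0.le
  have h2 : √((m : ℝ) * T * R * q) ≤ √((m : ℝ) * (m + R) * w) := Real.sqrt_le_sqrt h1
  have h3 : (√((m : ℝ) * (m + R) * w))⁻¹ ≤ (√((m : ℝ) * T * R * q))⁻¹ :=
    inv_anti₀ (Real.sqrt_pos.2 (by positivity)) h2
  refine (mul_le_mul_of_nonneg_right h3 hR0.le).trans (le_of_eq ?_)
  rw [Real.sqrt_mul (by positivity), Real.sqrt_mul (by positivity), Real.sqrt_div' _ (by positivity)]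
  have hR2 : √(R : ℝ) * √(R : ℝ) = R := Real.mul_self_sqrt hR0.le
  have hRs : √(R : ℝ) ≠ 0 := (Real.sqrt_pos.2 hR0).ne'
  have hqs : √q ≠ 0 := (Real.sqrt_pos.2 hq0).ne'
  have hms : √((m : ℝ) * T) ≠ 0 := (Real.sqrt_pos.2 (by positivity)).ne'
  field_simp
  nlinarith

/-- the weight of the block -/
def wt (κ T : ℝ) (m R : ℕ) : ℝ := T ^ (-κ) + (if (R : ℝ) ≤ m * T ^ (-(3 * κ)) then 1 else 0) +
  (if (R : ℝ) < T ^ (1 / 4 : ℝ) then 1 else 0)

lemma wt_ge (κ T : ℝ) (m R : ℕ) : T ^ (-κ) ≤ wt κ T m R := by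
  unfold wt; split_ifs <;> linarith

lemma block {η κ : ℝ} (hη : 0 < η) (hη1 : η ≤ 1) (hκ : κ = η / 16) (C1 T y ω Bd : ℝ) (m R : ℕ)
    (hC : 0 < C1) (hT : 256 ≤ T) (hm : 1 ≤ m) (hR : 1 ≤ R) (hz1 : 1 ≤ zz T m R)
    (hBA : Bd ≤ C1 * (√((m : ℝ) * (m + R)))⁻¹ * (1 + |ω|) ^ (-(1 / 2 : ℝ)) *
      ((1 + |ω|) / zz T m R) ^ 4 * Real.exp (-(|ω| / (4 * zz T m R))) * R)
    (hBB : 2 * Real.pi ≤ kap m R * |ω| → kap m R * |ω| ≤ (R : ℝ) ^ 5 →
      Bd ≤ C1 * (1 + |y|) * (√((m : ℝ) * (m + R)))⁻¹ * (1 + |ω|) ^ (-(1 / 2 : ℝ)) *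
      ((1 + |ω|) / zz T m R) ^ 4 * (1 + (1 + |ω|) / zz T m R) *
      Real.exp (-(|ω| / (4 * zz T m R))) * ((R : ℝ) ^ (1 - η) + R / (kap m R * |ω|))) :
    Bd ≤ C1 * (10 * KK) * (1 + |y|) * √((R : ℝ) / (m * T)) * wt κ T m R := by
  have hm0 : (0 : ℝ) < m := by exact_mod_cast hm
  have hR0 : (0 : ℝ) < R := by exact_mod_cast hR
  have hR1 : (1 : ℝ) ≤ R := by exact_mod_cast hR
  have hT0 : 0 < T := by linarith
  have hT1 : 1 ≤ T := by linarith
  have hκ0 : 0 < κ := by rw [hκ]; positivity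
  have hκ1 : κ ≤ 1 / 16 := by rw [hκ]; linarith
  have hK := one_le_KK
  set z : ℝ := zz T m R with hz
  have hz0 : 0 < z := by linarith
  set w : ℝ := 1 + |ω| with hw
  have hw1 : 1 ≤ w := by rw [hw]; linarith [abs_nonneg ω]
  have hw0 : 0 < w := by linarith
  set q : ℝ := w / z with hq
  have hq0 : 0 < q := by rw [hq]; positivity
  set E : ℝ := Real.exp (-(|ω| / (4 * z))) with hE
  have hE0 : 0 < E := Real.exp_pos _
  have hE' : E = Real.exp (-((w - 1) / (4 * z))) := by rw [hE, hw]; congr 3; ring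
  obtain ⟨g1, g2, g3⟩ := Gq w z q E hw1 hz1 hq hE'
  have hcom := common T z w q m R hT0 hm hR hz hz1 hw1 hq
  set S : ℝ := (√((m : ℝ) * (m + R)))⁻¹ with hS
  set u : ℝ := w ^ (-(1 / 2 : ℝ)) with hu
  set s : ℝ := √((R : ℝ) / (m * T)) with hs
  have hs0 : 0 ≤ s := Real.sqrt_nonneg _
  have hy : 0 ≤ |y| := abs_nonneg y
  have hmain : S * u * R * (q ^ 4 * E) ≤ s * (q ^ 4 * (√q)⁻¹ * E) := by
    calc S * u * R * (q ^ 4 * E) ≤ s * (√q)⁻¹ * (q ^ 4 * E) :=
          mul_le_mul_of_nonneg_right hcom (by positivity)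
      _ = s * (q ^ 4 * (√q)⁻¹ * E) := by ring
  have hTκ : 0 < T ^ (-κ) := Real.rpow_pos_of_pos hT0 _
  have hwt := wt_ge κ T m R
  have hwt0 : 0 < wt κ T m R := by linarith
  -- the trivial case
  have htriv : ∀ g : ℝ, q ^ 4 * (√q)⁻¹ * E ≤ KK * g → g ≤ wt κ T m R →
      Bd ≤ C1 * (10 * KK) * (1 + |y|) * s * wt κ T m R := by
    intro g hg hgw
    have h1 : Bd ≤ C1 * (s * (KK * wt κ T m R)) := by
      calc Bd ≤ C1 * (S * u * R * (q ^ 4 * E)) := by
            refine hBA.trans (le_of_eq ?_); ring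
        _ ≤ C1 * (s * (q ^ 4 * (√q)⁻¹ * E)) := mul_le_mul_of_nonneg_left hmain hC.le
        _ ≤ C1 * (s * (KK * g)) := by
            apply mul_le_mul_of_nonneg_left _ hC.le
            exact mul_le_mul_of_nonneg_left hg hs0
        _ ≤ C1 * (s * (KK * wt κ T m R)) := by
            apply mul_le_mul_of_nonneg_left _ hC.le
            apply mul_le_mul_of_nonneg_left _ hs0
            exact mul_le_mul_of_nonneg_left hgw (by linarith)
    refine h1.trans ?_
    have h2 : 0 ≤ C1 * (s * (KK * wt κ T m R)) := by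
      have := KK_pos
      positivity
    have h3 : C1 * (10 * KK) * (1 + |y|) * s * wt κ T m R =
        (10 * (1 + |y|)) * (C1 * (s * (KK * wt κ T m R))) := by ring
    rw [h3]
    nlinarith
  by_cases c1 : (R : ℝ) ≤ m * T ^ (-(3 * κ))
  · apply htriv 1 (by linarith)
    unfold wt
    rw [if_pos c1]
    split_ifs <;> linarith
  by_cases c2 : (R : ℝ) < T ^ (1 / 4 : ℝ)
  · apply htriv 1 (by linarith)
    unfold wt
    rw [if_pos c2]
    split_ifs <;> linarith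
  by_cases c3 : q ≤ T ^ (-κ)
  · exact htriv q g1 (c3.trans hwt)
  by_cases c4 : T ^ κ ≤ q
  · apply htriv q⁻¹ g2
    refine le_trans ?_ hwt
    rw [Real.rpow_neg hT0.le]
    exact inv_anti₀ (Real.rpow_pos_of_pos hT0 _) c4
  push Not at c1 c2 c3 c4
  -- the main case
  have hkz : kap m R * z = T * ((R : ℝ) / (m + R)) := by
    rw [hz]; unfold kap zz
    have hl : 0 < Real.log (1 + (R : ℝ) / m) := lt_of_lt_of_le (by positivity) (log_ge m R hm)
    generalize Real.log (1 + (R : ℝ) / m) = l at hl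
    field_simp
  have hkap0 : 0 < kap m R := by
    unfold kap
    have hl : 0 < Real.log (1 + (R : ℝ) / m) := lt_of_lt_of_le (by positivity) (log_ge m R hm)
    positivity
  have hkap1 : kap m R ≤ 1 := by
    unfold kap
    have hl : 0 < Real.log (1 + (R : ℝ) / m) := lt_of_lt_of_le (by positivity) (log_ge m R hm)
    rw [div_le_one hl]
    exact log_ge m R hm
  have hom : |ω| = q * z - 1 := by rw [hq, hw]; field_simp; ring
  have hkw : kap m R * |ω| = q * (T * ((R : ℝ) / (m + R))) - kap m R := by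
    rw [hom, ← hkz]; ring
  -- `R / (m + R)` is at least `T ^ (- 3 κ) / 2`
  have h3κ : T ^ (-(3 * κ)) ≤ 1 := Real.rpow_le_one_of_one_le_of_nonpos hT1 (by linarith)
  have h3κ0 : 0 < T ^ (-(3 * κ)) := Real.rpow_pos_of_pos hT0 _
  have hfrac : T ^ (-(3 * κ)) / 2 ≤ (R : ℝ) / (m + R) := by
    rw [div_le_div_iff₀ (by norm_num) (by positivity)]
    nlinarith
  have hfrac1 : (R : ℝ) / (m + R) ≤ 1 := by
    rw [div_le_one (by positivity)]; linarith
  have hlow : T ^ (1 - 4 * κ) / 2 ≤ q * (T * ((R : ℝ) / (m + R))) := by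
    have e1 : T ^ (1 - 4 * κ) = T ^ (-κ) * (T * T ^ (-(3 * κ))) := by
      nth_rewrite 3 [← Real.rpow_one T]
      rw [← Real.rpow_add hT0, ← Real.rpow_add hT0]
      congr 1; ring
    rw [e1]
    calc T ^ (-κ) * (T * T ^ (-(3 * κ))) / 2 = T ^ (-κ) * (T * (T ^ (-(3 * κ)) / 2)) := by ring
      _ ≤ q * (T * ((R : ℝ) / (m + R))) := by
          apply mul_le_mul c3.le _ (by positivity) hq0.le
          exact mul_le_mul_of_nonneg_left hfrac hT0.le
  have hbig : (64 : ℝ) ≤ T ^ (1 - 4 * κ) := by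
    have e1 : (64 : ℝ) = 256 ^ (3 / 4 : ℝ) := by
      have : (256 : ℝ) = 4 ^ (4 : ℝ) := by norm_num
      rw [this, ← Real.rpow_mul (by norm_num)]
      norm_num
    rw [e1]
    calc (256 : ℝ) ^ (3 / 4 : ℝ) ≤ T ^ (3 / 4 : ℝ) := Real.rpow_le_rpow (by norm_num) hT (by norm_num)
      _ ≤ T ^ (1 - 4 * κ) := Real.rpow_le_rpow_of_exponent_le hT1 (by linarith)
  have hlow2 : T ^ (1 - 4 * κ) / 4 ≤ kap m R * |ω| := by
    rw [hkw]; linarith
  have hpi : 2 * Real.pi ≤ kap m R * |ω| := by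
    have := Real.pi_lt_four
    linarith
  have hup : kap m R * |ω| ≤ (R : ℝ) ^ 5 := by
    have h1 : kap m R * |ω| ≤ T ^ κ * T := by
      rw [hkw]
      have : q * (T * ((R : ℝ) / (m + R))) ≤ T ^ κ * (T * 1) := by
        apply mul_le_mul c4.le _ (by positivity) (by positivity)
        exact mul_le_mul_of_nonneg_left hfrac1 hT0.le
      linarith
    have h2 : T ^ κ * T = T ^ (κ + 1) := by
      rw [Real.rpow_add hT0, Real.rpow_one]
    have h3 : T ^ (5 / 4 : ℝ) ≤ (R : ℝ) ^ 5 := by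
      have : T ^ (5 / 4 : ℝ) = (T ^ (1 / 4 : ℝ)) ^ 5 := by
        rw [← Real.rpow_natCast, ← Real.rpow_mul hT0.le]; norm_num
      rw [this]
      exact pow_le_pow_left₀ (by positivity) c2 5
    have h4 : T ^ (κ + 1) ≤ T ^ (5 / 4 : ℝ) :=
      Real.rpow_le_rpow_of_exponent_le hT1 (by linarith)
    linarith
  have hB := hBB hpi hup
  have hkw0 : 0 < kap m R * |ω| := by linarith [Real.pi_pos]
  have e2 : (R : ℝ) ^ (1 - η) + R / (kap m R * |ω|) =
      R * ((R : ℝ) ^ (-η) + (kap m R * |ω|)⁻¹) := by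
    rw [show (1 : ℝ) - η = 1 + -η by ring, Real.rpow_add hR0, Real.rpow_one]
    ring
  have h4κ : T ^ (-(4 * κ)) ≤ T ^ (-(2 * κ)) :=
    Real.rpow_le_rpow_of_exponent_le hT1 (by linarith)
  have hRη : (R : ℝ) ^ (-η) ≤ T ^ (-(4 * κ)) := by
    have h1 : (T ^ (1 / 4 : ℝ)) ^ (-(η)) = T ^ (-(4 * κ)) := by
      rw [← Real.rpow_mul hT0.le]; congr 1; rw [hκ]; ring
    rw [← h1]
    exact Real.rpow_le_rpow_of_nonpos (Real.rpow_pos_of_pos hT0 _) c2 (by linarith)
  have hkinv : (kap m R * |ω|)⁻¹ ≤ 4 * T ^ (-(4 * κ)) := by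
    have h1 : (kap m R * |ω|)⁻¹ ≤ (T ^ (1 - 4 * κ) / 4)⁻¹ :=
      inv_anti₀ (by linarith) hlow2
    have h2 : (T ^ (1 - 4 * κ) / 4)⁻¹ = 4 * T ^ (-(1 - 4 * κ)) := by
      rw [Real.rpow_neg hT0.le, inv_div]; ring
    rw [h2] at h1
    have h3 : T ^ (-(1 - 4 * κ)) ≤ T ^ (-(4 * κ)) :=
      Real.rpow_le_rpow_of_exponent_le hT1 (by linarith)
    linarith
  have h1q : 1 + q ≤ 2 * T ^ κ := by
    have : (1 : ℝ) ≤ T ^ κ := Real.one_le_rpow hT1 hκ0.le
    linarith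
  have hsave : (1 + q) * ((R : ℝ) ^ (-η) + (kap m R * |ω|)⁻¹) ≤ 10 * T ^ (-κ) := by
    have h1 : (R : ℝ) ^ (-η) + (kap m R * |ω|)⁻¹ ≤ 5 * T ^ (-(2 * κ)) := by linarith
    have h2 : T ^ κ * T ^ (-(2 * κ)) = T ^ (-κ) := by
      rw [← Real.rpow_add hT0]; congr 1; ring
    calc (1 + q) * ((R : ℝ) ^ (-η) + (kap m R * |ω|)⁻¹)
        ≤ (2 * T ^ κ) * (5 * T ^ (-(2 * κ))) :=
          mul_le_mul h1q h1 (by positivity) (by positivity)
      _ = 10 * (T ^ κ * T ^ (-(2 * κ))) := by ring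
      _ = 10 * T ^ (-κ) := by rw [h2]
  rw [e2] at hB
  have hpos : 0 ≤ (1 + q) * ((R : ℝ) ^ (-η) + (kap m R * |ω|)⁻¹) := by positivity
  calc Bd ≤ C1 * (1 + |y|) * ((S * u * R * (q ^ 4 * E)) *
        ((1 + q) * ((R : ℝ) ^ (-η) + (kap m R * |ω|)⁻¹))) := by
        refine hB.trans (le_of_eq ?_); ring
    _ ≤ C1 * (1 + |y|) * ((s * KK) * (10 * T ^ (-κ))) := by
        apply mul_le_mul_of_nonneg_left _ (by positivity)
        apply mul_le_mul _ hsave hpos (by have := KK_pos; positivity)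
        exact hmain.trans (mul_le_mul_of_nonneg_left g3 hs0)
    _ = C1 * (10 * KK) * (1 + |y|) * s * T ^ (-κ) := by ring
    _ ≤ C1 * (10 * KK) * (1 + |y|) * s * wt κ T m R := by
        apply mul_le_mul_of_nonneg_left hwt
        have := KK_pos
        positivity

end

end Pool.Agent.Helper59.GD
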